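import Pool.Agent.H68.L.R_seed8.Y703.CQ.Stm
import Pool.Agent.H68.L.R_seed8.Y779.CX.Hold

/-!
# CQ-BIL: bilinear sums of quadratic symbols
-/

set_option autoImplicit false
set_option linter.all false

open Finset

namespace Pool.Agent.Y710.CQ

open Pool.Agent.Y703.CQ
open scoped ComplexConjugate

/-- the Jacobi symbol as a complex number -/
noncomputable def xi (m n : ℕ) : ℂ := ((jacobiSym (n : ℤ) m : ℤ) : ℂ)

theorem xi_one (m : ℕ) : xi m 1 = 1 := by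
  unfold xi
  rw [Nat.cast_one, jacobiSym.one_left, Int.cast_one]

theorem xi_mul (m x y : ℕ) : xi m (x * y) = xi m x * xi m y := by
  unfold xi
  rw [Nat.cast_mul, jacobiSym.mul_left, Int.cast_mul]

theorem xi_norm (m n : ℕ) : ‖xi m n‖ ≤ 1 := by
  unfold xi
  rcases jacobiSym.trichotomy (n : ℤ) m with h | h | h <;> rw [h] <;> simp

theorem xi_conj (m n : ℕ) : conj (xi m n) = xi m n := by
  unfold xi
  exact map_intCast _ _

/-- partial sums of a periodic function with vanishing period sum -/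
theorem per_sum {g : ℕ → ℂ} {N : ℕ} (hN : 0 < N) (hg : ∀ y, g (y + N) = g y)
    (h0 : ∑ i ∈ range N, g i = 0) (hb : ∀ y, ‖g y‖ ≤ 1) (V : ℕ) :
    ‖∑ i ∈ range V, g i‖ ≤ N := by
  have h1 : ∀ m x : ℕ, g (m * N + x) = g x := by
    intro m
    induction m with
    | zero => intro x; rw [zero_mul, zero_add]
    | succ m ih =>
      intro x
      rw [show (m + 1) * N + x = (m * N + x) + N by ring, hg, ih]
  have h2 : ∀ m : ℕ, ∑ i ∈ range (m * N), g i = 0 := by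
    intro m
    induction m with
    | zero => simp
    | succ m ih =>
      rw [Nat.succ_mul, sum_range_add, ih, sum_congr rfl fun x _ => h1 m x, h0, add_zero]
  have h3 : V = (V / N) * N + V % N := by
    rw [mul_comm]
    exact (Nat.div_add_mod V N).symm
  rw [h3, sum_range_add, h2, zero_add, sum_congr rfl fun x _ => h1 _ x]
  refine (norm_sum_le _ _).trans ?_
  refine (sum_le_sum (g := fun _ => (1 : ℝ)) fun g _ => hb _).trans ?_
  rw [sum_const, nsmul_eq_mul, mul_one, card_range]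
  exact_mod_cast (Nat.mod_lt _ hN).le

theorem leg {p : ℕ} [Fact p.Prime] (n : ℕ) : xi p n = ((quadraticChar (ZMod p) (n : ZMod p) : ℤ) : ℂ) := by
  unfold xi
  rw [← jacobiSym.legendreSym.to_jacobiSym]
  unfold legendreSym
  congr 2
  push_cast
  rfl

/-- the correlation of the symbols of different primes over a period -/
theorem full {p q : ℕ} (hp : p.Prime) (hq : q.Prime) (hp2 : p ≠ 2) (hne : p ≠ q) :
    ∑ i ∈ range (p * q), xi p i * xi q i = 0 := by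
  haveI : Fact p.Prime := ⟨hp⟩
  haveI : Fact q.Prime := ⟨hq⟩
  haveI : NeZero (p * q) := ⟨Nat.mul_ne_zero hp.ne_zero hq.ne_zero⟩
  have hc : Nat.Coprime p q := (Nat.coprime_primes hp hq).2 hne
  set e := ZMod.chineseRemainder hc with he
  have e1 : ∑ i ∈ range (p * q), xi p i * xi q i =
      ∑ x : ZMod (p * q), ((quadraticChar (ZMod p) (e x).1 : ℤ) : ℂ) *
        ((quadraticChar (ZMod q) (e x).2 : ℤ) : ℂ) := by
    refine sum_nbij' (fun n => (n : ZMod (p * q))) ZMod.val (fun _ _ => mem_univ _)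
      (fun x _ => mem_range.2 (ZMod.val_lt x)) (fun n hn => ?_) (fun x _ => ?_) (fun n _ => ?_)
    · exact ZMod.val_cast_of_lt (mem_range.1 hn)
    · exact ZMod.natCast_zmod_val x
    · have hen : e (n : ZMod (p * q)) = ((n : ZMod p), (n : ZMod q)) := map_natCast e n
      rw [leg, leg, hen]
  rw [e1]
  have e2 := Equiv.sum_comp e.toEquiv (fun y : ZMod p × ZMod q =>
    ((quadraticChar (ZMod p) y.1 : ℤ) : ℂ) * ((quadraticChar (ZMod q) y.2 : ℤ) : ℂ))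
  refine e2.trans ?_
  rw [Fintype.sum_prod_type]
  have e3 : ∀ x : ZMod p, ∑ y : ZMod q, ((quadraticChar (ZMod p) x : ℤ) : ℂ) *
      ((quadraticChar (ZMod q) y : ℤ) : ℂ) = ((quadraticChar (ZMod p) x : ℤ) : ℂ) *
      ∑ y : ZMod q, ((quadraticChar (ZMod q) y : ℤ) : ℂ) := fun x => (mul_sum _ _ _).symm
  rw [sum_congr rfl fun x _ => e3 x, ← sum_mul]
  have e4 : ∑ x : ZMod p, ((quadraticChar (ZMod p) x : ℤ) : ℂ) = 0 := by
    have := quadraticChar_sum_zero (F := ZMod p) (by rwa [ZMod.ringChar_zmod_n])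
    exact_mod_cast congrArg (fun t : ℤ => (t : ℂ)) this
  rw [e4, zero_mul]

theorem xi_per (p x k : ℕ) : xi p (x + p * k) = xi p x := by
  unfold xi
  rw [jacobiSym.mod_left ((x + p * k : ℕ) : ℤ), jacobiSym.mod_left (x : ℤ)]
  congr 2
  push_cast
  rw [Int.add_mul_emod_self_left]

theorem corr {p q : ℕ} (hp : p.Prime) (hq : q.Prime) (hp2 : p ≠ 2) (hne : p ≠ q) (V : ℕ) :
    ‖∑ i ∈ range V, xi p i * conj (xi q i)‖ ≤ (p : ℝ) * q := by
  have h := per_sum (g := fun i => xi p i * xi q i) (N := p * q) (Nat.mul_pos hp.pos hq.pos)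
    (fun y => ?_) (full hp hq hp2 hne) (fun y => ?_) V
  · push_cast at h
    refine le_trans (le_of_eq ?_) h
    congr 1
    exact sum_congr rfl fun i _ => by rw [xi_conj]
  · show xi p (y + p * q) * xi q (y + p * q) = xi p y * xi q y
    rw [xi_per, mul_comm p q, xi_per]
  · show ‖xi p y * xi q y‖ ≤ 1
    rw [norm_mul]
    exact mul_le_one₀ (xi_norm _ _) (norm_nonneg _) (xi_norm _ _)

theorem card_le_of {T : Finset ℕ} {M : ℕ} (hT : ∀ q ∈ T, q.Prime ∧ q ≠ 2 ∧ q ≤ M) :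
    (T.card : ℝ) ≤ M := by
  have h1 : T ⊆ Icc 1 M := fun q hq => mem_Icc.2 ⟨(hT q hq).1.pos, (hT q hq).2.2⟩
  have h2 := card_le_card h1
  rw [Nat.card_Icc, Nat.add_sub_cancel] at h2
  exact_mod_cast h2

/-- the bilinear estimate, the moduli in `T` -/
theorem bil {T P : Finset ℕ} {M L : ℕ} (hM : 1 ≤ M) (hML : M ≤ L)
    (hT : ∀ q ∈ T, q.Prime ∧ q ≠ 2 ∧ q ≤ M) (hP : ∀ p ∈ P, p.Prime ∧ p ≠ 2 ∧ p ≤ L)
    (c d : ℕ → ℂ) (hc : ∀ p, ‖c p‖ ≤ 1) (hd : ∀ q, ‖d q‖ ≤ 1) :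
    ‖∑ m ∈ T, ∑ x ∈ P, c m * d x * xi m x‖ ^ 12 ≤ 3 * 6 ^ 6 * ((M : ℝ) ^ 11 * (L : ℝ) ^ 12) := by
  have hL : 1 ≤ L := hM.trans hML
  have hMr : (1 : ℝ) ≤ M := by exact_mod_cast hM
  have hLr : (1 : ℝ) ≤ L := by exact_mod_cast hL
  have hMLr : (M : ℝ) ≤ L := by exact_mod_cast hML
  have hTc := card_le_of hT
  have hPc := card_le_of hP
  have hW : ∀ eps : ℕ → ℂ, (∀ m, ‖eps m‖ ≤ 1) →
      ∑ g ∈ range (L ^ 6 + 1), ‖∑ m ∈ T, eps m * xi m g‖ ^ 2 ≤ 3 * (M * (L : ℝ) ^ 6) := by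
    intro eps heps
    refine (Pool.Agent.Y779.CX.second T (range (L ^ 6 + 1)) xi (fun m _ g => xi_norm m g)
      ((M : ℝ) * M) (by positivity) (fun m hm m' hm' hne => ?_) eps heps).trans ?_
    · refine (corr (hT m hm).1 (hT m' hm').1 (hT m hm).2.1 hne _).trans ?_
      have c1 : (m : ℝ) ≤ M := by exact_mod_cast (hT m hm).2.2
      have c2 : (m' : ℝ) ≤ M := by exact_mod_cast (hT m' hm').2.2
      gcongr
    · rw [card_range]
      push_cast
      have e1 : (1 : ℝ) ≤ (L : ℝ) ^ 6 := one_le_pow₀ hLr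
      have e2 : (T.card : ℝ) * ((L : ℝ) ^ 6 + 1) ≤ M * ((L : ℝ) ^ 6 + (L : ℝ) ^ 6) := by gcongr
      have e3 : (T.card : ℝ) ^ 2 * ((M : ℝ) * M) ≤ (M : ℝ) ^ 2 * ((M : ℝ) * M) := by gcongr
      have e4 : (M : ℝ) ^ 3 ≤ (L : ℝ) ^ 3 := pow_le_pow_left₀ (by linarith) hMLr 3
      have e5 : (L : ℝ) ^ 3 ≤ (L : ℝ) ^ 6 := pow_le_pow_right₀ hLr (by norm_num)
      have e6 : (M : ℝ) ^ 2 * ((M : ℝ) * M) ≤ M * (L : ℝ) ^ 6 := by
        calc (M : ℝ) ^ 2 * ((M : ℝ) * M) = M * (M : ℝ) ^ 3 := by ring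
          _ ≤ M * (L : ℝ) ^ 6 := mul_le_mul_of_nonneg_left (e4.trans e5) (by linarith)
      linarith
  have hu : ∀ x ∈ P, ∀ s : Fin 6 → ℕ, (∀ i, s i ∈ P) → id x ∣ ∏ i, id (s i) → ∃ i, x = s i := by
    intro x hx s hs hd
    obtain ⟨j, -, hj⟩ := (Prime.dvd_finsetProd_iff (hP x hx).1.prime _).1 hd
    exact ⟨j, (Nat.prime_dvd_prime_iff_eq (hP x hx).1 (hP _ (hs j)).1).1 hj⟩
  have hD : ∀ s : Fin 6 → ℕ, (∀ i, s i ∈ P) → ∏ i, id (s i) ∈ range (L ^ 6 + 1) := by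
    intro s hs
    rw [mem_range, Nat.lt_succ_iff]
    refine (prod_le_prod' (g := fun _ => L) fun i _ => (hP _ (hs i)).2.2).trans ?_
    rw [prod_const, card_univ, Fintype.card_fin]
  have h := Pool.Agent.Y779.CX.holder T P (range (L ^ 6 + 1)) id xi (fun m _ => xi_one m)
    (fun m _ => xi_mul m) hD hu c d hc hd _ hW
  refine h.trans ?_
  calc (T.card : ℝ) ^ 10 * ((P.card : ℝ) ^ 6 * (6 ^ 6 * (3 * (M * (L : ℝ) ^ 6)))) ≤
      (M : ℝ) ^ 10 * ((L : ℝ) ^ 6 * (6 ^ 6 * (3 * (M * (L : ℝ) ^ 6)))) := by gcongr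
    _ = 3 * 6 ^ 6 * ((M : ℝ) ^ 11 * (L : ℝ) ^ 12) := by ring

theorem sg_xi {p q : ℕ} (hp : p.Prime) (hq : q.Prime) (hne : p ≠ q) : sg (nr p q) = xi p q := by
  haveI : Fact p.Prime := ⟨hp⟩
  rw [leg]
  have h0 : (q : ZMod p) ≠ 0 := by
    intro h
    rw [ZMod.natCast_eq_zero_iff] at h
    exact hne ((Nat.prime_dvd_prime_iff_eq hp hq).1 h)
  unfold sg nr
  by_cases h : IsSquare (q : ZMod p)
  · rw [if_pos h, if_pos rfl, (quadraticChar_one_iff_isSquare h0).2 h, Int.cast_one]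
  · rw [if_neg h, if_neg one_ne_zero, quadraticChar_neg_one_iff_not_isSquare.2 h, Int.cast_neg,
      Int.cast_one]

theorem t_BIL : S_BIL := by
  refine ⟨3 * 6 ^ 6, by norm_num, ?_⟩
  intro P Q A B z c d hP hQ hdis hz hzA hzB hc hd
  have hne : ∀ p ∈ P, ∀ q ∈ Q, p ≠ q := fun p hp q hq he =>
    (Finset.disjoint_left.1 hdis) hp (he ▸ hq)
  have hzr : (1 : ℝ) ≤ z := by exact_mod_cast hz
  have hP' : ∀ p ∈ P, p.Prime ∧ p ≠ 2 ∧ p ≤ A := by
    intro p hp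
    obtain ⟨h1, h2, h3⟩ := hP p hp
    exact ⟨h1, by omega, h3⟩
  rcases le_total B A with hBA | hAB
  · have e1 : ∑ p ∈ P, ∑ q ∈ Q, c p * d q * sg (nr p q) =
        ∑ q ∈ Q, ∑ p ∈ P, d q * c p * xi q p := by
      rw [sum_comm]
      refine sum_congr rfl fun q hq => sum_congr rfl fun p hp => ?_
      obtain ⟨p1, p2, -⟩ := hP p hp
      obtain ⟨q1, q2, -⟩ := hQ q hq
      rw [sg_xi p1 q1 (hne p hp q hq), mul_comm (c p)]
      congr 1
      unfold xi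
      rw [jacobiSym.quadratic_reciprocity_one_mod_four (a := p) (b := q) (by omega)
        (q1.odd_of_ne_two q2)]
    rw [e1]
    have h1 := bil (hz.trans hzB) hBA hQ hP' d c hd hc
    have h2 : (z : ℝ) ≤ B := by exact_mod_cast hzB
    calc ‖∑ q ∈ Q, ∑ p ∈ P, d q * c p * xi q p‖ ^ 12 * z ≤
        (3 * 6 ^ 6 * ((B : ℝ) ^ 11 * (A : ℝ) ^ 12)) * B := by
          apply mul_le_mul h1 h2 (by positivity) (by positivity)
      _ = 3 * 6 ^ 6 * ((A : ℝ) * B) ^ 12 := by ring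
  · have e1 : ∑ p ∈ P, ∑ q ∈ Q, c p * d q * sg (nr p q) =
        ∑ p ∈ P, ∑ q ∈ Q, c p * d q * xi p q := by
      refine sum_congr rfl fun p hp => sum_congr rfl fun q hq => ?_
      rw [sg_xi (hP p hp).1 (hQ q hq).1 (hne p hp q hq)]
    rw [e1]
    have h1 := bil (hz.trans hzA) hAB hP' hQ c d hc hd
    have h2 : (z : ℝ) ≤ A := by exact_mod_cast hzA
    calc ‖∑ p ∈ P, ∑ q ∈ Q, c p * d q * xi p q‖ ^ 12 * z ≤
        (3 * 6 ^ 6 * ((A : ℝ) ^ 11 * (B : ℝ) ^ 12)) * A := by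
          apply mul_le_mul h1 h2 (by positivity) (by positivity)
      _ = 3 * 6 ^ 6 * ((A : ℝ) * B) ^ 12 := by ring

end Pool.Agent.Y710.CQ
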